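import Pool.Agent.P8H18.RR.Stm2
import Pool.Agent.P8H45.RR.Maj

/-! # AR/APX (helper94): primes in residue classes modulo powers of ten -/

set_option autoImplicit false

namespace Pool.Agent.P8H94.AR

open Finset ArithmeticFunction Pool.Agent.P8H18.RR Pool.Agent.P8H18.AR

/-- the sum over a residue class by characters -/
theorem orth (M : ℕ) [NeZero M] (a : ℕ) (ha : a.Coprime M) (x : ℕ) :
    (M.totient : ℂ) * ∑ n ∈ (Icc 1 x).filter (fun n => n ≡ a [MOD M]), ((vonMangoldt n : ℝ) : ℂ) =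
      ∑ χ : DirichletCharacter ℂ M, χ ((a : ZMod M)⁻¹) *
        ∑ n ∈ Icc 1 x, χ (n : ZMod M) * ((vonMangoldt n : ℝ) : ℂ) := by
  have hu : IsUnit (a : ZMod M) := (ZMod.isUnit_iff_coprime _ _).2 ha
  simp_rw [mul_sum, ← mul_assoc]
  rw [sum_comm, sum_filter]
  refine sum_congr rfl fun n _ => ?_
  rw [← sum_mul, DirichletCharacter.sum_char_inv_mul_char_eq ℂ hu]
  have e : ((a : ZMod M) = (n : ZMod M)) ↔ n ≡ a [MOD M] := by
    rw [ZMod.natCast_eq_natCast_iff]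
    exact ⟨fun h => h.symm, fun h => h.symm⟩
  by_cases h : n ≡ a [MOD M]
  · rw [if_pos h, if_pos (e.2 h)]
  · rw [if_neg h, if_neg (fun h' => h (e.1 h')), zero_mul]

/-- the principal character -/
theorem prin (K x D : ℕ) (hD : 1 ≤ D) (hx : x ≤ 10 ^ D) :
    ‖∑ n ∈ Icc 1 x, (1 : DirichletCharacter ℂ (10 ^ K)) (n : ZMod (10 ^ K)) * ((vonMangoldt n : ℝ) : ℂ) -
      ∑ n ∈ Icc 1 x, ((vonMangoldt n : ℝ) : ℂ)‖ ≤ 40 * (D : ℝ) := by
  have h := Pool.Agent.P8H45.RR.nonunit_bound K D x hD hx 0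
  rw [norm_sub_rev, ← sum_sub_distrib]
  refine le_trans (le_of_eq ?_) h
  congr 1
  refine sum_congr rfl fun n _ => ?_
  by_cases hu : IsUnit (n : ZMod (10 ^ K))
  · rw [if_pos hu, MulChar.one_apply hu]
    simp
  · rw [if_neg hu, MulChar.map_nonunit _ hu]
    simp [ee]

/-- prime powers -/
theorem ppow (x : ℕ) (hx : 1 ≤ x) (P : ℕ → Prop) [DecidablePred P] :
    |∑ n ∈ (Icc 1 x).filter (fun n => P n), vonMangoldt n -
      ∑ p ∈ (Icc 1 x).filter (fun p => p.Prime ∧ P p), Real.log p| ≤ 2 * √(x : ℝ) * Real.log x := by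
  have hx1 : (1 : ℝ) ≤ x := by exact_mod_cast hx
  have h1 := Chebyshev.psi_sub_theta_eq_sum_not_prime (x : ℝ)
  have h2 := Chebyshev.psi_sub_theta_le hx1
  rw [h1, Nat.floor_natCast] at h2
  have e : ∑ n ∈ (Icc 1 x).filter (fun n => P n), vonMangoldt n -
      ∑ p ∈ (Icc 1 x).filter (fun p => p.Prime ∧ P p), Real.log p =
      ∑ n ∈ (Icc 1 x).filter (fun n => ¬ n.Prime ∧ P n), vonMangoldt n := by
    rw [sum_filter, sum_filter, sum_filter, ← sum_sub_distrib]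
    refine sum_congr rfl fun n _ => ?_
    by_cases hp : n.Prime
    · by_cases hP : P n
      · simp [hp, hP, vonMangoldt_apply_prime hp]
      · simp [hP]
    · by_cases hP : P n
      · simp [hp, hP]
      · simp [hP]
  rw [e, abs_of_nonneg (sum_nonneg fun _ _ => vonMangoldt_nonneg)]
  refine le_trans (sum_le_sum_of_subset_of_nonneg ?_ (fun _ _ _ => vonMangoldt_nonneg)) h2
  intro n hn
  rw [mem_filter, mem_Icc] at hn
  rw [mem_filter, mem_Ioc]
  exact ⟨⟨by omega, hn.1.2⟩, hn.2.1⟩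

theorem apx : S_APXA := by
  rintro kap hk0 hk1 ⟨c1, C1, hc1, hC1, hpsi⟩ ⟨c2, C2, hc2, hC2, hpnt⟩
  set c : ℝ := min (min c1 c2) (1 / 2) with hc
  have hcpos : 0 < c := lt_min (lt_min hc1 hc2) (by norm_num)
  have hcc1 : c ≤ c1 := (min_le_left _ _).trans (min_le_left _ _)
  have hcc2 : c ≤ c2 := (min_le_left _ _).trans (min_le_right _ _)
  have hc3 : c ≤ 1 / 2 := min_le_right _ _
  refine ⟨c, C1 + C2 + 200, hcpos, by positivity, ?_⟩
  intro L K a x hL hK hKL ha hx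
  set D : ℕ := 2 * L + 1 with hD
  have hD1 : 1 ≤ D := by omega
  set N : ℝ := (10 : ℝ) ^ D with hN
  have hN0 : 0 < N := by positivity
  set E : ℝ := Real.exp (-(c * (L : ℝ) ^ kap)) with hE
  have hE0 : 0 < E := Real.exp_pos _
  have hL1 : (1 : ℝ) ≤ L := by exact_mod_cast hL
  have hDL : (D : ℝ) = 2 * L + 1 := by rw [hD]; push_cast; ring
  have hLk0 : 0 ≤ (L : ℝ) ^ kap := Real.rpow_nonneg (by linarith) _
  have hLsqrt : (L : ℝ) ^ kap ≤ √(D : ℝ) := by
    calc (L : ℝ) ^ kap ≤ (L : ℝ) ^ (1 / 2 : ℝ) := Real.rpow_le_rpow_of_exponent_le hL1 hk1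
      _ = √(L : ℝ) := by rw [Real.sqrt_eq_rpow]
      _ ≤ √(D : ℝ) := Real.sqrt_le_sqrt (by rw [hDL]; linarith)
  have hLL : (L : ℝ) ^ kap ≤ L := by
    calc (L : ℝ) ^ kap ≤ (L : ℝ) ^ (1 : ℝ) := Real.rpow_le_rpow_of_exponent_le hL1 (by linarith)
      _ = L := Real.rpow_one _
  -- the small terms
  have hsmall : Real.exp (-(L : ℝ) / 2) ≤ E := by
    rw [hE, Real.exp_le_exp]
    nlinarith
  set s : ℝ := (10 : ℝ) ^ L with hs
  have hs0 : 0 < s := by positivity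
  have hNs : N = 10 * s ^ 2 := by
    rw [hN, hs, hD, pow_succ, pow_mul', mul_comm]
  have hkey : (L : ℝ) ≤ s * Real.exp (-(L : ℝ) / 2) := by
    have h1 : Real.exp (2 * (L : ℝ)) ≤ s := by
      have h2 : Real.exp 2 ≤ 10 := by
        have h3 : Real.exp 2 = Real.exp 1 * Real.exp 1 := by rw [← Real.exp_add]; norm_num
        rw [h3]
        nlinarith [Real.exp_one_lt_d9, Real.exp_pos 1]
      calc Real.exp (2 * (L : ℝ)) = Real.exp 2 ^ L := by rw [← Real.exp_nat_mul, mul_comm]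
        _ ≤ 10 ^ L := pow_le_pow_left₀ (Real.exp_pos _).le h2 L
    have h4 : (L : ℝ) ≤ Real.exp L := by linarith [Real.add_one_le_exp (L : ℝ)]
    calc (L : ℝ) ≤ Real.exp L := h4
      _ ≤ Real.exp (2 * (L : ℝ) + -(L : ℝ) / 2) := Real.exp_le_exp.2 (by linarith)
      _ = Real.exp (2 * (L : ℝ)) * Real.exp (-(L : ℝ) / 2) := Real.exp_add _ _
      _ ≤ s * Real.exp (-(L : ℝ) / 2) := mul_le_mul_of_nonneg_right h1 (Real.exp_pos _).le
  -- `L s` is small
  have hNE : 10 * (L * s) ≤ N * E := by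
    calc 10 * (L * s) ≤ 10 * ((s * Real.exp (-(L : ℝ) / 2)) * s) := by gcongr
      _ = N * Real.exp (-(L : ℝ) / 2) := by rw [hNs]; ring
      _ ≤ N * E := mul_le_mul_of_nonneg_left hsmall hN0.le
  rcases Nat.eq_zero_or_pos x with rfl | hx1
  · simp
    positivity
  have hx1' : (1 : ℝ) ≤ x := by exact_mod_cast hx1
  have hxN : (x : ℝ) ≤ N := by rw [hN]; exact_mod_cast hx
  have : NeZero (10 ^ K) := ⟨by positivity⟩
  have haM : a.Coprime (10 ^ K) := ha.pow_right K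
  have hφ : (0 : ℝ) < (Nat.totient (10 ^ K) : ℝ) := by
    exact_mod_cast Nat.totient_pos.2 (by positivity)
  -- nonprincipal characters
  have hA : ∀ χ : DirichletCharacter ℂ (10 ^ K), χ ≠ 1 →
      ‖∑ n ∈ Icc 1 x, χ (n : ZMod (10 ^ K)) * ((vonMangoldt n : ℝ) : ℂ)‖ ≤ C1 * N * E := by
    intro χ hχ
    have h1 : c * (L : ℝ) ^ kap ≤ c1 * √(D : ℝ) := mul_le_mul hcc1 hLsqrt hLk0 hc1.le
    refine (hpsi D hD1 K (hKL.trans (Real.exp_le_exp.2 h1)) χ hχ x hx).trans ?_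
    refine mul_le_mul_of_nonneg_left (Real.exp_le_exp.2 (by linarith)) (by positivity)
  -- the prime number theorem
  have hB : |∑ n ∈ Icc 1 x, vonMangoldt n - (x : ℝ)| ≤ C2 * N * E := by
    refine (hpnt x hx1).trans ?_
    rcases le_total ((10 : ℝ) ^ L) x with hxL | hxL
    · have h1 : (L : ℝ) ≤ Real.log x := by
        have h2 : Real.log ((10 : ℝ) ^ L) ≤ Real.log x := Real.log_le_log (by positivity) hxL
        rw [Real.log_pow] at h2
        have h3 : (1 : ℝ) ≤ Real.log 10 := by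
          rw [Real.le_log_iff_exp_le (by norm_num)]
          linarith [Real.exp_one_lt_d9]
        nlinarith
      have h4 : c * (L : ℝ) ^ kap ≤ c2 * (Real.log x) ^ kap :=
        mul_le_mul hcc2 (Real.rpow_le_rpow (by linarith) h1 hk0.le) hLk0 hc2.le
      have h5 : Real.exp (-(c2 * (Real.log x) ^ kap)) ≤ E := Real.exp_le_exp.2 (by linarith)
      have h6 : C2 * x * Real.exp (-(c2 * (Real.log x) ^ kap)) ≤ C2 * N * E := by gcongr
      exact h6
    · have h1 : Real.exp (-(c2 * (Real.log x) ^ kap)) ≤ 1 := by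
        rw [Real.exp_le_one_iff]
        have : 0 ≤ (Real.log x) ^ kap := Real.rpow_nonneg (Real.log_nonneg hx1') _
        nlinarith
      have h2 : (x : ℝ) ≤ N * E := by
        refine hxL.trans (le_trans ?_ hNE)
        rw [← hs]
        nlinarith
      calc C2 * x * Real.exp (-(c2 * (Real.log x) ^ kap)) ≤ C2 * x * 1 := by gcongr
        _ ≤ C2 * (N * E) := by rw [mul_one]; gcongr
        _ = C2 * N * E := by ring
  have hC := prin K x D hD1 hx
  have hP := ppow x hx1 (fun n => n ≡ a [MOD 10 ^ K])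
  have hO := orth (10 ^ K) a haM x
  set ψa : ℝ := ∑ n ∈ (Icc 1 x).filter (fun n => n ≡ a [MOD 10 ^ K]), vonMangoldt n with hψa
  have hψc : ∑ n ∈ (Icc 1 x).filter (fun n => n ≡ a [MOD 10 ^ K]), ((vonMangoldt n : ℝ) : ℂ) = (ψa : ℂ) := by
    rw [hψa]
    push_cast
    rfl
  rw [hψc] at hO
  have hψx : ∑ n ∈ Icc 1 x, ((vonMangoldt n : ℝ) : ℂ) = ((∑ n ∈ Icc 1 x, vonMangoldt n : ℝ) : ℂ) := by
    push_cast
    rfl
  rw [hψx] at hC
  -- sum over the characters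
  have hchi : ∀ χ : DirichletCharacter ℂ (10 ^ K), ‖χ ((a : ZMod (10 ^ K))⁻¹)‖ ≤ 1 :=
    fun χ => χ.norm_le_one _
  have h1a : (1 : DirichletCharacter ℂ (10 ^ K)) ((a : ZMod (10 ^ K))⁻¹) = 1 := by
    refine MulChar.one_apply ?_
    have hu : IsUnit (a : ZMod (10 ^ K)) := (ZMod.isUnit_iff_coprime _ _).2 haM
    exact IsUnit.of_mul_eq_one _ (ZMod.inv_mul_of_unit _ hu)
  have hcard : ((univ.erase (1 : DirichletCharacter ℂ (10 ^ K))).card : ℝ) ≤ (Nat.totient (10 ^ K) : ℝ) := by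
    have h1 : Fintype.card (DirichletCharacter ℂ (10 ^ K)) = Nat.totient (10 ^ K) := by
      rw [← Nat.card_eq_fintype_card]
      exact DirichletCharacter.card_eq_totient_of_hasEnoughRootsOfUnity ℂ (10 ^ K)
    rw [← h1]
    exact_mod_cast card_le_univ _
  have hsum : ‖((Nat.totient (10 ^ K) : ℝ) : ℂ) * (ψa : ℂ) - ((x : ℝ) : ℂ)‖ ≤
      40 * (D : ℝ) + C2 * N * E + (Nat.totient (10 ^ K) : ℝ) * (C1 * N * E) := by
    have e1 : ((Nat.totient (10 ^ K) : ℝ) : ℂ) * (ψa : ℂ) - ((x : ℝ) : ℂ) =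
        (∑ n ∈ Icc 1 x, (1 : DirichletCharacter ℂ (10 ^ K)) (n : ZMod (10 ^ K)) * ((vonMangoldt n : ℝ) : ℂ) -
          ((∑ n ∈ Icc 1 x, vonMangoldt n : ℝ) : ℂ)) +
        ((∑ n ∈ Icc 1 x, vonMangoldt n - (x : ℝ) : ℝ) : ℂ) +
        ∑ χ ∈ univ.erase (1 : DirichletCharacter ℂ (10 ^ K)), χ ((a : ZMod (10 ^ K))⁻¹) *
          ∑ n ∈ Icc 1 x, χ (n : ZMod (10 ^ K)) * ((vonMangoldt n : ℝ) : ℂ) := by
      have h2 : ((Nat.totient (10 ^ K) : ℝ) : ℂ) = ((Nat.totient (10 ^ K) : ℕ) : ℂ) := by push_cast; rfl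
      rw [h2, hO, ← add_sum_erase univ _ (mem_univ (1 : DirichletCharacter ℂ (10 ^ K))), h1a, one_mul,
        Complex.ofReal_sub]
      ring
    rw [e1]
    refine (norm_add_le _ _).trans (add_le_add ((norm_add_le _ _).trans (add_le_add hC ?_)) ?_)
    · rw [Complex.norm_real, Real.norm_eq_abs]
      exact hB
    · refine (norm_sum_le _ _).trans ?_
      have h3 : ∀ χ ∈ univ.erase (1 : DirichletCharacter ℂ (10 ^ K)), ‖χ ((a : ZMod (10 ^ K))⁻¹) *
          ∑ n ∈ Icc 1 x, χ (n : ZMod (10 ^ K)) * ((vonMangoldt n : ℝ) : ℂ)‖ ≤ C1 * N * E := by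
        intro χ hχ
        rw [norm_mul]
        calc _ ≤ 1 * (C1 * N * E) := mul_le_mul (hchi χ) (hA χ (ne_of_mem_erase hχ)) (norm_nonneg _) zero_le_one
          _ = _ := one_mul _
      refine (sum_le_sum h3).trans ?_
      rw [sum_const, nsmul_eq_mul]
      exact mul_le_mul_of_nonneg_right hcard (by positivity)
  have hφ1 : (1 : ℝ) ≤ (Nat.totient (10 ^ K) : ℝ) := by
    exact_mod_cast Nat.totient_pos.2 (by positivity)
  have hmain : |ψa - (x : ℝ) / (Nat.totient (10 ^ K) : ℝ)| ≤ 40 * (D : ℝ) + C2 * N * E + C1 * N * E := by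
    have e2 : ψa - (x : ℝ) / (Nat.totient (10 ^ K) : ℝ) =
        ((Nat.totient (10 ^ K) : ℝ) * ψa - x) / (Nat.totient (10 ^ K) : ℝ) := by
      field_simp
    rw [e2, abs_div, abs_of_pos hφ, div_le_iff₀ hφ]
    have h3 : |(Nat.totient (10 ^ K) : ℝ) * ψa - x| =
        ‖((Nat.totient (10 ^ K) : ℝ) : ℂ) * (ψa : ℂ) - ((x : ℝ) : ℂ)‖ := by
      rw [← Complex.ofReal_mul, ← Complex.ofReal_sub, Complex.norm_real, Real.norm_eq_abs]
    rw [h3]
    refine hsum.trans ?_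
    have h4 : 0 ≤ 40 * (D : ℝ) + C2 * N * E := by positivity
    have h5 := mul_le_mul_of_nonneg_left hφ1 h4
    linarith
  have hP2 : 2 * √(x : ℝ) * Real.log x ≤ 56 * (L * s) := by
    have h1 : √(x : ℝ) ≤ 4 * s := by
      rw [Real.sqrt_le_left (by positivity)]
      nlinarith
    have h2 : Real.log x ≤ 7 * L := by
      have h3 : Real.log x ≤ Real.log N := Real.log_le_log (by linarith) hxN
      rw [hN, Real.log_pow] at h3
      have h4 : Real.log 10 ≤ 7 / 3 := by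
        rw [Real.log_le_iff_le_exp (by norm_num)]
        have h5 : (10 : ℝ) ^ 3 ≤ Real.exp (7 / 3) ^ 3 := by
          rw [← Real.exp_nat_mul]
          have h6 : Real.exp ((3 : ℕ) * (7 / 3)) = Real.exp 1 ^ 7 := by
            rw [← Real.exp_nat_mul]
            norm_num
          rw [h6]
          have h7 : (2.7 : ℝ) ≤ Real.exp 1 := by linarith [Real.exp_one_gt_d9]
          calc (10 : ℝ) ^ 3 ≤ 2.7 ^ 7 := by norm_num
            _ ≤ Real.exp 1 ^ 7 := pow_le_pow_left₀ (by norm_num) h7 7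
        exact le_of_pow_le_pow_left₀ (by norm_num) (Real.exp_pos _).le h5
      have h8 : 0 ≤ Real.log 10 := Real.log_nonneg (by norm_num)
      nlinarith
    have h9 : 0 ≤ Real.log x := Real.log_nonneg hx1'
    calc 2 * √(x : ℝ) * Real.log x ≤ 2 * (4 * s) * (7 * L) := by gcongr
      _ = 56 * (L * s) := by ring
  have hD2 : 40 * (D : ℝ) ≤ 120 * (L * s) := by
    have hs1 : 1 ≤ s := one_le_pow₀ (by norm_num)
    nlinarith
  have hfin : |∑ p ∈ (Icc 1 x).filter (fun p => p.Prime ∧ p ≡ a [MOD 10 ^ K]), Real.log p -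
      (x : ℝ) / (Nat.totient (10 ^ K) : ℝ)| ≤ |ψa - (x : ℝ) / (Nat.totient (10 ^ K) : ℝ)| +
      |ψa - ∑ p ∈ (Icc 1 x).filter (fun p => p.Prime ∧ p ≡ a [MOD 10 ^ K]), Real.log p| := by
    rw [abs_sub_comm ψa (∑ p ∈ (Icc 1 x).filter (fun p => p.Prime ∧ p ≡ a [MOD 10 ^ K]), Real.log p)]
    refine le_trans (le_of_eq ?_) ((abs_add_le _ _).trans (le_of_eq (add_comm _ _)))
    congr 1
    ring
  have hNE0 : 0 ≤ N * E := by positivity
  linarith [hfin, hmain, hP, hP2, hD2, hNE]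

end Pool.Agent.P8H94.AR
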